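import Pool.Agent.N176.GW.Stm

set_option autoImplicit false

/-!
# Most cells are good, real base (after `N176/OW/GC.lean`)
-/

namespace Pool.Agent.N738.GW

open Finset Filter Topology MeasureTheory
open Pool.Agent.H305R2 (roughPart ff)
open Pool.Agent.N176.OW (VT)
open Pool.Agent.N176.GW

/-- the mean of the cell, as a sum over the exponents -/
theorem mT_eq (α : ℝ) (g : ℕ → ℝ) (z t : ℕ) (T : Finset ℕ) (m : ℕ) :
    mT α g z t T m = ∑ q ∈ T, (((cell α z t m).filter (fun n =>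
      (roughPart q (lv α g t q n)).Prime)).card : ℝ) / α ^ (t - z) := by
  unfold mT
  rw [← Finset.sum_div]
  congr 1
  have h1 : ∀ n, ((hits α g T t n).card : ℝ) =
      ∑ q ∈ T, if (roughPart q (lv α g t q n)).Prime then (1 : ℝ) else 0 := by
    intro n
    unfold hits
    rw [Finset.card_filter]
    push_cast
    rfl
  rw [Finset.sum_congr rfl fun n _ => h1 n, Finset.sum_comm]
  refine Finset.sum_congr rfl fun q _ => ?_
  rw [Finset.card_filter]
  push_cast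
  rfl

theorem gc (α : ℝ) (hα : 1 < α) (g : ℕ → ℝ) (h1 : S_FM α) (h2 : S_CL α g) : S_GC α g := by
  obtain ⟨κ0, K0, hκ0, hK0, hfm⟩ := h1
  obtain ⟨P1, hP1⟩ := h2
  have hl2 : 0 < Real.log 2 := Real.log_pos (by norm_num)
  have hl2' : 1 / 2 < Real.log 2 := by
    have := Real.log_two_gt_d9
    linarith
  have hl2'' : Real.log 2 < 1 := by
    have := Real.log_two_lt_d9
    linarith
  have hα0 : (0 : ℝ) < α := by linarith
  obtain ⟨k, hk⟩ := exists_pow_lt_of_lt_one hκ0 (by norm_num : (1 / 2 : ℝ) < 1)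
  refine ⟨k + 8, by omega, K0 / Real.log 2 + 1, by positivity, fun m0 => ?_⟩
  obtain ⟨P, hP⟩ := hfm m0
  have hlim := tendsto_pow_const_div_const_pow_of_one_lt 6 (by norm_num : (1 : ℝ) < 2)
  have hev : ∀ᶠ n : ℕ in atTop, (n : ℝ) ^ 6 / 2 ^ n < 1 / 4 :=
    hlim.eventually (gt_mem_nhds (by positivity))
  obtain ⟨P2, hP2⟩ := eventually_atTop.1 hev
  refine ⟨P + P1 + m0 + (k + 8) + P2 + 2, fun i hi T hT => ?_⟩
  have hi1 : 2 ≤ i := by omega
  have hiR : (2 : ℝ) ≤ i := by exact_mod_cast hi1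
  have hi0 : (0 : ℝ) < i := by linarith
  obtain ⟨z, hz⟩ : ∃ z : ℕ, z = 2 ^ (i + 2 - (k + 8)) := ⟨_, rfl⟩
  rw [← hz]
  have hx2 : 4 ≤ 2 ^ i := by
    calc 4 = 2 ^ 2 := rfl
      _ ≤ 2 ^ i := Nat.pow_le_pow_right (by norm_num) hi1
  have hT' : ∀ p ∈ T, p.Prime ∧ 2 ^ i < p ∧ p ≤ 2 * 2 ^ i := by
    intro p hp
    obtain ⟨h1, h2, h3⟩ := hT p hp
    exact ⟨h1, h2, by rw [pow_succ] at h3; omega⟩
  have hx0 : (0 : ℝ) < 2 ^ i := by positivity
  have hx4 : (4 : ℝ) ≤ 2 ^ i := by exact_mod_cast hx2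
  have hcT : (T.card : ℝ) ≤ 2 ^ i := by
    have h3 : T ⊆ Ioc (2 ^ i) (2 * 2 ^ i) := fun p hp => by
      obtain ⟨-, h4, h5⟩ := hT' p hp
      exact mem_Ioc.2 ⟨h4, h5⟩
    have h4 := card_le_card h3
    rw [Nat.card_Ioc] at h4
    have h5 : T.card ≤ 2 ^ i := by omega
    exact_mod_cast h5
  have hm0z : m0 ≤ z := by
    have h1 : i + 2 - (k + 8) < 2 ^ (i + 2 - (k + 8)) := Nat.lt_two_pow_self
    omega
  have hz64 : 64 * z ≤ 2 ^ i := by
    rw [hz]
    calc 64 * 2 ^ (i + 2 - (k + 8)) = 2 ^ (6 + (i + 2 - (k + 8))) := by rw [pow_add]; rfl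
      _ ≤ 2 ^ i := Nat.pow_le_pow_right (by norm_num) (by omega)
  have ht : 4 * 2 ^ i ≤ 2 ^ (i + 2) := by
    rw [pow_add]
    omega
  have hzκ : ∀ q ∈ T, (z : ℝ) ≤ κ0 * q := by
    intro q hq
    have h1 : (2 : ℝ) ^ i ≤ q := by exact_mod_cast (hT q hq).2.1.le
    have h2 : (z : ℝ) ≤ κ0 * 2 ^ i := by
      have h3 : (2 : ℝ) ^ i = 2 ^ (i + 2 - (k + 8)) * 2 ^ (k + 6) := by
        rw [← pow_add]
        congr 1
        omega
      have h4 : (1 : ℝ) ≤ κ0 * 2 ^ (k + 6) := by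
        have h5 : (1 / 2 : ℝ) ^ k * 2 ^ k = 1 := by
          rw [← mul_pow]
          norm_num
        have h6 : (2 : ℝ) ^ k ≤ 2 ^ (k + 6) := pow_le_pow_right₀ (by norm_num) (by omega)
        have h7 : (0 : ℝ) < 2 ^ k := by positivity
        calc (1 : ℝ) = (1 / 2 : ℝ) ^ k * 2 ^ k := h5.symm
          _ ≤ κ0 * 2 ^ (k + 6) := mul_le_mul hk.le h6 h7.le hκ0.le
      have hz' : (z : ℝ) = (2 : ℝ) ^ (i + 2 - (k + 8)) := by
        rw [hz, Nat.cast_pow, Nat.cast_ofNat]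
      rw [h3, hz']
      have h5 : (0 : ℝ) < 2 ^ (i + 2 - (k + 8)) := by positivity
      calc (2 : ℝ) ^ (i + 2 - (k + 8)) = 1 * 2 ^ (i + 2 - (k + 8)) := (one_mul _).symm
        _ ≤ (κ0 * 2 ^ (k + 6)) * 2 ^ (i + 2 - (k + 8)) := mul_le_mul_of_nonneg_right h4 h5.le
        _ = κ0 * (2 ^ (i + 2 - (k + 8)) * 2 ^ (k + 6)) := by ring
    exact h2.trans (mul_le_mul_of_nonneg_left h1 hκ0.le)
  have hPq : ∀ q ∈ T, P ≤ q := by
    intro q hq
    have h1 : i < 2 ^ i := Nat.lt_two_pow_self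
    have h2 := (hT q hq).2.1
    omega
  have hPx : P1 ≤ 2 ^ i := by
    have h1 : i < 2 ^ i := Nat.lt_two_pow_self
    omega
  -- the logarithms
  have hlog : ∀ q ∈ T, i * Real.log 2 ≤ Real.log q ∧ Real.log q ≤ 2 * i := by
    intro q hq
    obtain ⟨-, h3, h4⟩ := hT' q hq
    have h3' : (2 : ℝ) ^ i ≤ q := by exact_mod_cast h3.le
    have h4' : (q : ℝ) ≤ 2 ^ (i + 1) := by
      rw [pow_succ]
      have : (q : ℝ) ≤ 2 * 2 ^ i := by exact_mod_cast h4
      linarith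
    constructor
    · rw [← Real.log_pow]
      exact Real.log_le_log hx0 h3'
    · refine (Real.log_le_log (hx0.trans_le h3') h4').trans ?_
      rw [Real.log_pow]
      push_cast
      nlinarith
  -- the sum of the excesses
  obtain ⟨Y, hY⟩ : ∃ Y : ℕ → ℕ → ℝ, Y = fun (q m : ℕ) => max 0
      (|(∫ u in (Real.log ((m : ℝ) * α ^ (q - z)))..(Real.log (((m : ℝ) + 1) * α ^ (q - z))),
        Real.exp u * ff q u) / α ^ (q - z) - kr α * (Real.log q / q)| - K0 / q) := ⟨_, rfl⟩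
  have hY0 : ∀ q m, 0 ≤ Y q m := fun q m => by rw [hY]; exact le_max_left _ _
  have hsumK : ∑ q ∈ T, (K0 / (q : ℝ) + 1 / ((2 ^ i : ℕ) : ℝ) ^ 2) ≤
      (K0 / Real.log 2 + 1) * VT T / i := by
    unfold VT
    rw [mul_sum, sum_div]
    refine sum_le_sum fun q hq => ?_
    have h1 : (2 : ℝ) ^ i ≤ q := by exact_mod_cast (hT q hq).2.1.le
    have hq0 : (0 : ℝ) < q := lt_of_lt_of_le hx0 h1
    obtain ⟨h2, -⟩ := hlog q hq
    have hq2 : (q : ℝ) ≤ 2 * 2 ^ i := by exact_mod_cast (hT' q hq).2.2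
    have h3 : 1 ≤ Real.log q / (i * Real.log 2) := by
      rw [one_le_div (by positivity)]
      exact h2
    have h4 : K0 / (q : ℝ) ≤ K0 / Real.log 2 * (Real.log q / q) / i := by
      calc K0 / (q : ℝ) = K0 / q * 1 := (mul_one _).symm
        _ ≤ K0 / q * (Real.log q / (i * Real.log 2)) := mul_le_mul_of_nonneg_left h3 (by positivity)
        _ = K0 / Real.log 2 * (Real.log q / q) / i := by
            field_simp
    have h5 : 1 / ((2 ^ i : ℕ) : ℝ) ^ 2 ≤ Real.log q / q / i := by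
      push_cast
      rw [div_div, div_le_div_iff₀ (by positivity) (by positivity), one_mul]
      have h6 : (q : ℝ) * i ≤ 2 * 2 ^ i * i := mul_le_mul_of_nonneg_right hq2 hi0.le
      have h7 : (i : ℝ) * Real.log 2 * (2 ^ i) ^ 2 ≤ Real.log q * (2 ^ i) ^ 2 :=
        mul_le_mul_of_nonneg_right h2 (by positivity)
      have h8 : 2 * (2 : ℝ) ^ i * i ≤ i * Real.log 2 * (2 ^ i) ^ 2 := by
        have h9 : (2 : ℝ) ≤ Real.log 2 * 2 ^ i := by nlinarith
        have h10 : (0 : ℝ) ≤ i * 2 ^ i := by positivity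
        nlinarith
      linarith
    have h6 : (K0 / Real.log 2 + 1) * (Real.log q / q) / i =
        K0 / Real.log 2 * (Real.log q / q) / i + Real.log q / q / i := by ring
    rw [h6]
    exact add_le_add h4 h5
  have hdev : ∀ m, 1 ≤ m → |mT α g z (2 ^ (i + 2)) T m - kr α * VT T| ≤
      ∑ q ∈ T, Y q m + (K0 / Real.log 2 + 1) * VT T / i := by
    intro m hm
    have h1 : mT α g z (2 ^ (i + 2)) T m - kr α * VT T =
        ∑ q ∈ T, ((((cell α z (2 ^ (i + 2)) m).filter (fun n =>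
          (roughPart q (lv α g (2 ^ (i + 2)) q n)).Prime)).card : ℝ) / α ^ (2 ^ (i + 2) - z) -
          kr α * (Real.log q / q)) := by
      rw [sum_sub_distrib, ← mul_sum, mT_eq]
      rfl
    rw [h1]
    refine (abs_sum_le_sum_abs _ _).trans ?_
    have h2 : ∀ q ∈ T, |(((cell α z (2 ^ (i + 2)) m).filter (fun n =>
          (roughPart q (lv α g (2 ^ (i + 2)) q n)).Prime)).card : ℝ) / α ^ (2 ^ (i + 2) - z) -
          kr α * (Real.log q / q)| ≤ Y q m + (K0 / q + 1 / ((2 ^ i : ℕ) : ℝ) ^ 2) := by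
      intro q hq
      have h3 := hP1 (2 ^ i) hPx q (hT' q hq).2.1 (hT' q hq).2.2 z hz64 (2 ^ (i + 2)) ht m hm
      have h4 : |(∫ u in (Real.log (m * α ^ (q - z)))..(Real.log (((m : ℝ) + 1) * α ^ (q - z))),
        Real.exp u * ff q u) / α ^ (q - z) - kr α * (Real.log q / q)| - K0 / q ≤ Y q m := by
        rw [hY]
        exact le_max_right _ _
      have h5 := abs_sub_le ((((cell α z (2 ^ (i + 2)) m).filter (fun n =>
          (roughPart q (lv α g (2 ^ (i + 2)) q n)).Prime)).card : ℝ) / α ^ (2 ^ (i + 2) - z))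
        ((∫ u in (Real.log (m * α ^ (q - z)))..(Real.log (((m : ℝ) + 1) * α ^ (q - z))),
        Real.exp u * ff q u) / α ^ (q - z)) (kr α * (Real.log q / q))
      linarith
    refine (sum_le_sum h2).trans ?_
    rw [sum_add_distrib]
    linarith
  obtain ⟨W, hW⟩ : ∃ W, W = Ico ⌊α ^ (z - m0)⌋₊ ⌈α ^ (z + m0)⌉₊ := ⟨_, rfl⟩
  rw [← hW]
  have hWm : ∀ m ∈ W, 1 ≤ m := by
    intro m hm
    rw [hW, mem_Ico] at hm
    refine le_trans ?_ hm.1
    rw [Nat.one_le_floor_iff]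
    exact one_le_pow₀ hα.le
  have hbad : ∀ m ∈ W.filter (fun m => 1 / (i : ℝ) ^ 2 + (K0 / Real.log 2 + 1) * VT T / i <
      |mT α g z (2 ^ (i + 2)) T m - kr α * VT T|), 1 / (i : ℝ) ^ 2 ≤ ∑ q ∈ T, Y q m := by
    intro m hm
    rw [mem_filter] at hm
    have h1 := hm.2.trans_le (hdev m (hWm m hm.1))
    linarith
  have h1 := card_nsmul_le_sum _ _ _ hbad
  rw [nsmul_eq_mul] at h1
  have h2 : ∑ m ∈ W.filter (fun m => 1 / (i : ℝ) ^ 2 + (K0 / Real.log 2 + 1) * VT T / i <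
      |mT α g z (2 ^ (i + 2)) T m - kr α * VT T|), ∑ q ∈ T, Y q m ≤ ∑ m ∈ W, ∑ q ∈ T, Y q m :=
    sum_le_sum_of_subset_of_nonneg (filter_subset _ _) (fun m _ _ => sum_nonneg fun q _ => hY0 q m)
  have h3 : ∑ m ∈ W, ∑ q ∈ T, Y q m ≤ α ^ z * (4 * i ^ 2 / 2 ^ i) := by
    rw [sum_comm]
    have h4 : ∀ q ∈ T, ∑ m ∈ W, Y q m ≤ α ^ z * ((2 * i) ^ 2 / (2 ^ i) ^ 2) := by
      intro q hq
      have h5 := hP q (hPq q hq) z hm0z (hzκ q hq)
      rw [← hW] at h5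
      have h6 : ∑ m ∈ W, Y q m ≤ α ^ z * ((Real.log q) ^ 2 / q ^ 2) := by
        rw [hY]
        exact h5
      refine h6.trans ?_
      apply mul_le_mul_of_nonneg_left _ (by positivity)
      have h1 : (2 : ℝ) ^ i ≤ q := by exact_mod_cast (hT q hq).2.1.le
      have hlq : 0 ≤ Real.log q := Real.log_natCast_nonneg q
      refine div_le_div₀ (by positivity) (pow_le_pow_left₀ hlq (hlog q hq).2 2) (by positivity)
        (pow_le_pow_left₀ hx0.le h1 2)
    refine (sum_le_sum h4).trans ?_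
    rw [sum_const, nsmul_eq_mul]
    calc (T.card : ℝ) * (α ^ z * ((2 * i) ^ 2 / (2 ^ i) ^ 2))
        ≤ (2 ^ i) * (α ^ z * ((2 * i) ^ 2 / (2 ^ i) ^ 2)) :=
          mul_le_mul_of_nonneg_right hcT (by positivity)
      _ = α ^ z * (4 * i ^ 2 / 2 ^ i) := by
          field_simp
          ring
  have h4 := (h1.trans h2).trans h3
  have h5 := hP2 i (by omega)
  obtain ⟨N, hN⟩ : ∃ N : ℝ, N = ((W.filter (fun m => 1 / (i : ℝ) ^ 2 +
    (K0 / Real.log 2 + 1) * VT T / i < |mT α g z (2 ^ (i + 2)) T m - kr α * VT T|)).card : ℝ) :=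
    ⟨_, rfl⟩
  rw [← hN] at h4 ⊢
  rw [mul_one_div, div_le_iff₀ (by positivity)] at h4
  refine h4.trans ?_
  rw [div_lt_div_iff₀ (by positivity) (by positivity)] at h5
  rw [div_eq_mul_one_div (α ^ z) _, mul_assoc]
  apply mul_le_mul_of_nonneg_left _ (by positivity)
  rw [div_mul_eq_mul_div, div_le_div_iff₀ (by positivity) (by positivity)]
  nlinarith

end Pool.Agent.N738.GW
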